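import Mathlib

/-! The algebra of the wreath product multiplication gadget. -/

namespace Pool.Agent.H336Z.ThF

open scoped commutatorElement

lemma ring_first {S : Type*} [CommRing S] (T : ℤ → S) (h0 : T 0 = 1)
    (hadd : ∀ a b, T (a + b) = T a * T b) (n : ℤ) :
    ∃ g, T n - 1 = (T 1 - 1) * (n + (T 1 - 1) * g) := by
  induction n using Int.induction_on with
  | zero => exact ⟨0, by simp [h0]⟩
  | succ n ih =>
    obtain ⟨g, hg⟩ := ih
    refine ⟨n + T 1 * g, ?_⟩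
    rw [hadd]
    push_cast at hg ⊢
    linear_combination (T 1) * hg
  | pred n ih =>
    obtain ⟨g, hg⟩ := ih
    have h1 : T 1 * T (-1) = 1 := by rw [← hadd]; simpa using h0
    refine ⟨T (-1) * g - (-(n : S) - 1) * T (-1), ?_⟩
    rw [sub_eq_add_neg (-(n : ℤ)) 1, hadd]
    push_cast at hg ⊢
    linear_combination (T (-1)) * hg + (1 + (T 1 - 1) * (-(n : S) - 1)) * h1

lemma ring_second {S : Type*} [CommRing S] (T : ℤ → S) (h0 : T 0 = 1)
    (hadd : ∀ a b, T (a + b) = T a * T b) (n m : ℤ) :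
    ∃ g, (T n - 1) * (T m - 1) - (T (n * m) - 1) * (T 1 - 1) =
      (T 1 - 1) * ((T 1 - 1) * ((T 1 - 1) * g)) := by
  obtain ⟨a, ha⟩ := ring_first T h0 hadd n
  obtain ⟨b, hb⟩ := ring_first T h0 hadd m
  obtain ⟨c, hc⟩ := ring_first T h0 hadd (n * m)
  refine ⟨n * b + m * a + (T 1 - 1) * a * b - c, ?_⟩
  rw [ha, hb, hc]
  push_cast
  ring

lemma exists_z {Γ : Type*} [Group Γ] (B : Subgroup Γ) (hB : ∀ x ∈ B, ∀ y ∈ B, x * y = y * x)
    (t : Γ) (ht : ∀ n : ℤ, ∀ x ∈ B, t ^ n * x * (t ^ n)⁻¹ ∈ B) {α : Γ} (hα : α ∈ B) (n m : ℤ) :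
    ∃ z ∈ B, ⁅t ^ n, ⁅t ^ m, α⁆⁆ * ⁅t ^ (n * m), ⁅t, α⁆⁆⁻¹ = ⁅t, ⁅t, ⁅t, z⁆⁆⁆ := by
  let _ : CommGroup B := { (inferInstance : Group B) with
    mul_comm := fun x y => Subtype.ext (hB _ x.2 _ y.2) }
  let φ : ℤ → AddMonoid.End (Additive B) := fun k =>
    { toFun := fun x => Additive.ofMul ⟨t ^ k * (x.toMul : B) * (t ^ k)⁻¹, ht k _ x.toMul.2⟩
      map_zero' := by
        apply Additive.toMul.injective
        apply Subtype.ext
        simp
      map_add' := fun x y => by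
        apply Additive.toMul.injective
        apply Subtype.ext
        simp }
  have hφ : ∀ k (x : Additive B), ((φ k x).toMul : Γ) = t ^ k * (x.toMul : Γ) * (t ^ k)⁻¹ :=
    fun _ _ => rfl
  let μ : Multiplicative ℤ →* AddMonoid.End (Additive B) :=
    { toFun := fun k => φ k.toAdd
      map_one' := by
        ext x
        rw [hφ]; simp
      map_mul' := fun a b => by
        ext x
        rw [AddMonoid.End.coe_mul, Function.comp_apply, hφ, hφ, hφ, toAdd_mul, zpow_add]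
        group }
  let Φ := MonoidAlgebra.lift ℤ (AddMonoid.End (Additive B)) (Multiplicative ℤ) μ
  let T : ℤ → MonoidAlgebra ℤ (Multiplicative ℤ) := fun k =>
    MonoidAlgebra.of ℤ (Multiplicative ℤ) (Multiplicative.ofAdd k)
  have hT : ∀ k, Φ (T k) = φ k := fun k => MonoidAlgebra.lift_of _ _
  obtain ⟨g, hg⟩ := ring_second T (by simp [T, MonoidAlgebra.one_def])
    (fun a b => by simp only [T, ofAdd_add, map_mul]) n m
  have hD : ∀ k (x : Additive B), (((φ k - 1) x).toMul : Γ) = ⁅t ^ k, (x.toMul : Γ)⁆ := by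
    intro k x
    have : (φ k - 1) x = φ k x - x := rfl
    rw [this, toMul_sub, div_eq_mul_inv, Subgroup.coe_mul, Subgroup.coe_inv, hφ,
      commutatorElement_def]
  have h1 := congrArg Φ hg
  simp only [map_sub, map_mul, map_one, hT] at h1
  set a : Additive B := Additive.ofMul ⟨α, hα⟩ with ha
  have h2 : ((φ n - 1) * (φ m - 1) - (φ (n * m) - 1) * (φ 1 - 1)) a =
      ((φ 1 - 1) * ((φ 1 - 1) * ((φ 1 - 1) * Φ g))) a := by rw [h1]
  have h3 : (φ n - 1) ((φ m - 1) a) - (φ (n * m) - 1) ((φ 1 - 1) a) =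
      (φ 1 - 1) ((φ 1 - 1) ((φ 1 - 1) (Φ g a))) := h2
  refine ⟨((Φ g a).toMul : B), (Φ g a).toMul.2, ?_⟩
  have h4 := congrArg (fun x : Additive B => (x.toMul : Γ)) h3
  simp only [toMul_sub, div_eq_mul_inv, Subgroup.coe_mul, Subgroup.coe_inv, hD, zpow_one] at h4
  exact h4

/-- pairing of a function with a finitely supported sequence -/
noncomputable def pairing (φ c : ℤ → ℤ) : ℤ := ∑ᶠ i, φ i * c i

def dlt (n : ℤ) (c : ℤ → ℤ) : ℤ → ℤ := fun i => c (i - n) - c i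

def FS (c : ℤ → ℤ) : Prop := ∃ N : ℤ, ∀ i, (N ≤ i ∨ i ≤ -N) → c i = 0

lemma FS.fin {c : ℤ → ℤ} (h : FS c) (φ : ℤ → ℤ) :
    Function.HasFiniteSupport (fun i => φ i * c i) := by
  obtain ⟨N, hN⟩ := h
  refine (Set.finite_Icc (-N) N).subset fun i hi => ?_
  by_contra hcon
  apply hi
  rw [Set.mem_Icc] at hcon
  show φ i * c i = 0
  rw [hN i (by omega), mul_zero]

lemma FS.shift {c : ℤ → ℤ} (h : FS c) (n : ℤ) : FS (fun i => c (i - n)) := by
  obtain ⟨N, hN⟩ := h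
  refine ⟨N + |n|, fun i hi => hN _ ?_⟩
  have := le_abs_self n
  have := neg_abs_le n
  omega

lemma FS.sub {c d : ℤ → ℤ} (hc : FS c) (hd : FS d) : FS (fun i => c i - d i) := by
  obtain ⟨N, hN⟩ := hc
  obtain ⟨M, hM⟩ := hd
  refine ⟨max N M, fun i hi => ?_⟩
  show c i - d i = 0
  rw [hN i (by omega), hM i (by omega), sub_zero]

lemma FS.dlt {c : ℤ → ℤ} (h : FS c) (n : ℤ) : FS (dlt n c) := (h.shift n).sub h

lemma pairing_sub {c d : ℤ → ℤ} (hc : FS c) (hd : FS d) (φ : ℤ → ℤ) :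
    pairing φ (fun i => c i - d i) = pairing φ c - pairing φ d := by
  unfold pairing
  rw [← finsum_sub_distrib (hc.fin φ) (hd.fin φ)]
  simp only [mul_sub]

lemma pairing_dlt {c : ℤ → ℤ} (hc : FS c) (φ : ℤ → ℤ) (n : ℤ) :
    pairing φ (dlt n c) = pairing (fun i => φ (i + n) - φ i) c := by
  unfold dlt
  rw [pairing_sub (hc.shift n) hc]
  unfold pairing
  have := finsum_comp_equiv (Equiv.addRight n) (f := fun i => φ i * c (i - n))
  rw [← this]
  simp only [Equiv.coe_addRight, add_sub_cancel_right]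
  rw [← finsum_sub_distrib (hc.fin _) (hc.fin φ)]
  simp only [sub_mul]

lemma moment {c a : ℤ → ℤ} (hc : FS c) (ha : ∀ i, a i = if i = 0 then -1 else 0) (n m k : ℤ)
    (h : (fun i => dlt n (dlt m a) i - dlt k (dlt 1 a) i) = dlt 1 (dlt 1 (dlt 1 c))) :
    n * m = k := by
  have hfa : FS a := ⟨1, fun i hi => by rw [ha, if_neg (by omega)]⟩
  have hpa : ∀ φ, pairing φ a = -φ 0 := by
    intro φ
    unfold pairing
    rw [finsum_eq_single _ 0 (fun x hx => by rw [ha, if_neg hx, mul_zero]), ha]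
    simp
  have h1 := congrArg (pairing (fun i => i ^ 2)) h
  rw [pairing_sub ((hfa.dlt _).dlt _) ((hfa.dlt _).dlt _), pairing_dlt (hfa.dlt _),
    pairing_dlt hfa, pairing_dlt (hfa.dlt _), pairing_dlt hfa, hpa, hpa,
    pairing_dlt ((hc.dlt _).dlt _), pairing_dlt (hc.dlt _), pairing_dlt hc] at h1
  have h2 : pairing (fun i => (((i + 1 + 1 + 1) ^ 2 - (i + 1 + 1) ^ 2 - ((i + 1 + 1) ^ 2 - (i + 1) ^ 2))
      - ((i + 1 + 1) ^ 2 - (i + 1) ^ 2 - ((i + 1) ^ 2 - i ^ 2)))) c = 0 := by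
    unfold pairing
    have : ∀ i : ℤ, (((i + 1 + 1 + 1) ^ 2 - (i + 1 + 1) ^ 2 - ((i + 1 + 1) ^ 2 - (i + 1) ^ 2))
      - ((i + 1 + 1) ^ 2 - (i + 1) ^ 2 - ((i + 1) ^ 2 - i ^ 2))) = 0 := fun i => by ring
    simp only [this, zero_mul, finsum_zero]
  rw [h2] at h1
  nlinarith

end Pool.Agent.H336Z.ThF
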