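import Pool.Agent.H929Z.ThF.Dyn

/-! Supports, right slopes, bumps and centralisers for order automorphisms of the line. -/

namespace Pool.Agent.H336Z.ThF

open Pool.Agent.H929Z.ThF
open scoped commutatorElement

/-- supported in `[r, s]` -/
def Supp (f : Aut) (r s : ℝ) : Prop := ∀ x, (x ≤ r ∨ s ≤ x) → f x = x

lemma aut_one (x : ℝ) : (1 : Aut) x = x := rfl

lemma inv_eq_of {f : Aut} {x y : ℝ} (h : f x = y) : f⁻¹ y = x := by
  rw [← h, aut_inv_apply]

lemma zpow_fix {g : Aut} {t : ℝ} (h : g t = t) (n : ℤ) : (g ^ n) t = t := by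
  rcases Int.eq_nat_or_neg n with ⟨k, rfl | rfl⟩
  · rw [zpow_natCast]; exact pow_fix h k
  · rw [zpow_neg, zpow_natCast]; exact fix_inv (pow_fix h k)

lemma Supp.one (r s : ℝ) : Supp 1 r s := fun _ _ => rfl

lemma Supp.mul {f g : Aut} {r s : ℝ} (hf : Supp f r s) (hg : Supp g r s) : Supp (f * g) r s :=
  fun x hx => by rw [aut_mul, hg x hx, hf x hx]

lemma Supp.inv {f : Aut} {r s : ℝ} (hf : Supp f r s) : Supp f⁻¹ r s :=
  fun x hx => fix_inv (hf x hx)

lemma Supp.zpow {f : Aut} {r s : ℝ} (hf : Supp f r s) (n : ℤ) : Supp (f ^ n) r s :=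
  fun x hx => zpow_fix (hf x hx) n

lemma Supp.pow {f : Aut} {r s : ℝ} (hf : Supp f r s) (n : ℕ) : Supp (f ^ n) r s :=
  fun x hx => pow_fix (hf x hx) n

lemma Supp.mono {f : Aut} {r s r' s' : ℝ} (hf : Supp f r s) (h1 : r' ≤ r) (h2 : s ≤ s') :
    Supp f r' s' := fun x hx => hf x (hx.imp (fun h => h.trans h1) (fun h => h2.trans h))

lemma Supp.comm {f g : Aut} {r s : ℝ} (hf : Supp f r s) (hg : Supp g r s) : Supp ⁅f, g⁆ r s := by
  rw [commutatorElement_def]
  exact ((hf.mul hg).mul hf.inv).mul hg.inv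

lemma Supp.conj {f : Aut} {r s : ℝ} (hf : Supp f r s) (h : Aut) :
    Supp (h * f * h⁻¹) (h r) (h s) := by
  intro x hx
  have : f (h⁻¹ x) = h⁻¹ x := by
    apply hf
    rcases hx with hx | hx
    · left
      have := (h⁻¹).monotone hx
      rwa [aut_inv_apply] at this
    · right
      have := (h⁻¹).monotone hx
      rwa [aut_inv_apply] at this
  rw [aut_mul, aut_mul, this, aut_apply_inv]

lemma Supp.maps {f : Aut} {r s : ℝ} (hf : Supp f r s) {x : ℝ} (h1 : r ≤ x) (h2 : x ≤ s) :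
    r ≤ f x ∧ f x ≤ s := by
  constructor
  · have := f.monotone h1
    rwa [hf r (Or.inl le_rfl)] at this
  · have := f.monotone h2
    rwa [hf s (Or.inr le_rfl)] at this

lemma commute_of_id {g K : Aut} {r s : ℝ} (hrs : r ≤ s) (hg : Supp g r s)
    (hK : ∀ x, r ≤ x → x ≤ s → K x = x) : Commute K g := by
  show K * g = g * K
  ext x
  rw [aut_mul, aut_mul]
  rcases le_total x r with h | h
  · have h1 : K x ≤ r := by
      have := K.monotone h
      rwa [hK r le_rfl hrs] at this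
    rw [hg x (Or.inl h), hg _ (Or.inl h1)]
  · rcases le_total s x with h' | h'
    · have h1 : s ≤ K x := by
        have := K.monotone h'
        rwa [hK s hrs le_rfl] at this
      rw [hg x (Or.inr h'), hg _ (Or.inr h1)]
    · rw [hK x h h', hK _ (hg.maps h h').1 (hg.maps h h').2]

lemma conj_eq_of_agree {g Y Y' : Aut} {r s : ℝ} (hrs : r ≤ s) (hg : Supp g r s)
    (h : ∀ x, r ≤ x → x ≤ s → Y x = Y' x) : Y * g * Y⁻¹ = Y' * g * Y'⁻¹ := by
  have hc : Commute (Y'⁻¹ * Y) g := commute_of_id hrs hg (fun x h1 h2 => by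
    rw [aut_mul, h x h1 h2, aut_inv_apply])
  calc Y * g * Y⁻¹ = Y' * ((Y'⁻¹ * Y) * g) * Y⁻¹ := by group
    _ = Y' * (g * (Y'⁻¹ * Y)) * Y⁻¹ := by rw [hc.eq]
    _ = _ := by group

lemma comm_eq_of_agree {g Y Y' : Aut} {r s : ℝ} (hrs : r ≤ s) (hg : Supp g r s)
    (h : ∀ x, r ≤ x → x ≤ s → Y x = Y' x) : ⁅Y, g⁆ = ⁅Y', g⁆ := by
  rw [commutatorElement_def, commutatorElement_def, conj_eq_of_agree hrs hg h]

lemma comm_eq_of_agree' {g Y Y' : Aut} {r s : ℝ} (hrs : r ≤ s) (hg : Supp g r s)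
    (h : ∀ x, r ≤ x → x ≤ s → Y x = Y' x) : ⁅g, Y⁆ = ⁅g, Y'⁆ := by
  rw [← commutatorElement_inv, comm_eq_of_agree hrs hg h, commutatorElement_inv]

lemma commute_of_disj {f g : Aut} {r s r' s' : ℝ} (hf : Supp f r s) (hg : Supp g r' s')
    (h : s ≤ r') : Commute f g :=
  commute_of_supp (c := s) (fun t ht => hf t (Or.inr ht)) (fun t ht => hg t (Or.inl (ht.trans h)))

/-- right germ at `x` is affine of slope `2 ^ m` -/
def RS (f : Aut) (x : ℝ) (m : ℤ) : Prop :=
  ∃ δ : ℝ, 0 < δ ∧ ∀ y, x ≤ y → y ≤ x + δ → f y = f x + (2 : ℝ) ^ m * (y - x)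

lemma RS.unique {f : Aut} {x : ℝ} {m n : ℤ} (h1 : RS f x m) (h2 : RS f x n) : m = n := by
  obtain ⟨δ, hδ, h1⟩ := h1
  obtain ⟨ε, hε, h2⟩ := h2
  have hp : 0 < min δ ε := lt_min hδ hε
  have a := h1 (x + min δ ε) (by linarith) (by linarith [min_le_left δ ε])
  have b := h2 (x + min δ ε) (by linarith) (by linarith [min_le_right δ ε])
  have c : (2 : ℝ) ^ m * (min δ ε) = (2 : ℝ) ^ n * (min δ ε) := by
    have e : x + min δ ε - x = min δ ε := by ring
    rw [e] at a b
    linarith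
  have d := mul_right_cancel₀ hp.ne' c
  exact zpow_right_injective₀ (by norm_num) (by norm_num) d

lemma RS.mul {f g : Aut} {x : ℝ} {m n : ℤ} (hf : RS f (g x) m) (hg : RS g x n) :
    RS (f * g) x (m + n) := by
  obtain ⟨δ, hδ, hf⟩ := hf
  obtain ⟨ε, hε, hg⟩ := hg
  have hn : (0 : ℝ) < 2 ^ n := by positivity
  refine ⟨min ε (δ / 2 ^ n), lt_min hε (by positivity), fun y h1 h2 => ?_⟩
  have e1 := hg y h1 (by linarith [min_le_left ε (δ / 2 ^ n)])
  have h3 : y - x ≤ δ / 2 ^ n := by linarith [min_le_right ε (δ / 2 ^ n)]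
  rw [le_div_iff₀ hn] at h3
  have e2 := hf (g y) (by rw [e1]; nlinarith) (by rw [e1]; nlinarith)
  rw [aut_mul, aut_mul, e2, e1, zpow_add₀ (by norm_num)]
  ring

lemma RS.of_id {f : Aut} {x δ : ℝ} (hδ : 0 < δ) (h : ∀ y, x ≤ y → y ≤ x + δ → f y = y) :
    RS f x 0 :=
  ⟨δ, hδ, fun y h1 h2 => by rw [h y h1 h2, h x le_rfl (by linarith)]; simp⟩

lemma RS.inv {f : Aut} {x : ℝ} {m : ℤ} (hf : RS f x m) : RS f⁻¹ (f x) (-m) := by
  obtain ⟨δ, hδ, hf⟩ := hf
  have hm : (0 : ℝ) < 2 ^ m := by positivity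
  refine ⟨2 ^ m * δ, by positivity, fun y h1 h2 => ?_⟩
  have e : f (x + (2 : ℝ) ^ (-m) * (y - f x)) = y := by
    have h3 : 0 ≤ (2 : ℝ) ^ (-m) * (y - f x) := mul_nonneg (by positivity) (by linarith)
    have h4 : (2 : ℝ) ^ (-m) * (y - f x) ≤ δ := by
      rw [zpow_neg, inv_mul_le_iff₀ hm]; linarith
    rw [hf _ (by linarith) (by linarith), zpow_neg]
    field_simp
    ring
  rw [inv_eq_of e, aut_inv_apply]

/-- right piecewise linear with slopes powers of two -/
def PL : Subgroup Aut where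
  carrier := {f | ∀ x, ∃ m, RS f x m}
  one_mem' := fun x => ⟨0, RS.of_id one_pos (fun _ _ _ => rfl)⟩
  mul_mem' := fun {f g} hf hg x => by
    obtain ⟨m, hm⟩ := hf (g x)
    obtain ⟨n, hn⟩ := hg x
    exact ⟨_, hm.mul hn⟩
  inv_mem' := fun {f} hf x => by
    obtain ⟨m, hm⟩ := hf (f⁻¹ x)
    have := hm.inv
    rw [aut_apply_inv] at this
    exact ⟨_, this⟩

open Classical in
/-- logarithm of the right slope -/
noncomputable def lam (f : Aut) (x : ℝ) : ℤ := if h : ∃ m, RS f x m then h.choose else 0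

lemma RS.lam_eq {f : Aut} {x : ℝ} {m : ℤ} (h : RS f x m) : lam f x = m := by
  have h' : ∃ m, RS f x m := ⟨m, h⟩
  unfold lam
  rw [dif_pos h']
  exact h'.choose_spec.unique h

lemma rs_lam {f : Aut} (hf : f ∈ PL) (x : ℝ) : RS f x (lam f x) := by
  obtain ⟨m, hm⟩ := hf x
  rwa [hm.lam_eq]

lemma lam_mul {f g : Aut} (hf : f ∈ PL) (hg : g ∈ PL) (x : ℝ) :
    lam (f * g) x = lam f (g x) + lam g x := ((rs_lam hf _).mul (rs_lam hg _)).lam_eq

lemma lam_inv {f : Aut} (hf : f ∈ PL) (x : ℝ) : lam f⁻¹ (f x) = -lam f x :=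
  (rs_lam hf x).inv.lam_eq

lemma lam_conj {f h : Aut} (hf : f ∈ PL) (hh : h ∈ PL) {x : ℝ} (hx : f x = x) :
    lam (h * f * h⁻¹) (h x) = lam f x := by
  rw [lam_mul (PL.mul_mem hh hf) (PL.inv_mem hh), lam_mul hh hf, lam_inv hh, aut_inv_apply, hx]
  ring

lemma lam_zpow {f : Aut} (hf : f ∈ PL) {x : ℝ} (hx : f x = x) (n : ℤ) :
    lam (f ^ n) x = n * lam f x := by
  induction n using Int.induction_on with
  | zero => simpa using (RS.of_id (f := 1) (x := x) one_pos (fun _ _ _ => rfl)).lam_eq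
  | succ n ih =>
    rw [zpow_add_one, lam_mul (PL.zpow_mem hf _) hf, hx, ih]; ring
  | pred n ih =>
    have h1 := lam_inv hf x
    rw [hx] at h1
    rw [zpow_sub_one, lam_mul (PL.zpow_mem hf _) (PL.inv_mem hf), fix_inv hx, ih, h1]; ring

/-- a one-bump function moving points down, with right slope `1/2` at the left end -/
structure Bump (g : Aut) (r s : ℝ) : Prop where
  lt : r < s
  pl : g ∈ PL
  supp : Supp g r s
  down : ∀ x, r < x → x < s → g x < x
  slope : lam g r = -1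

lemma Bump.le {g : Aut} {r s : ℝ} (h : Bump g r s) (x : ℝ) : g x ≤ x := by
  rcases le_or_gt x r with h1 | h1
  · exact (h.supp x (Or.inl h1)).le
  rcases le_or_gt s x with h2 | h2
  · exact (h.supp x (Or.inr h2)).le
  exact (h.down x h1 h2).le

lemma Bump.conj {g : Aut} {r s : ℝ} (hg : Bump g r s) {h : Aut} (hh : h ∈ PL) :
    Bump (h * g * h⁻¹) (h r) (h s) where
  lt := h.strictMono hg.lt
  pl := PL.mul_mem (PL.mul_mem hh hg.pl) (PL.inv_mem hh)
  supp := hg.supp.conj h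
  down := fun x h1 h2 => by
    have a : r < h⁻¹ x := by
      have := (h⁻¹).strictMono h1
      rwa [aut_inv_apply] at this
    have b : h⁻¹ x < s := by
      have := (h⁻¹).strictMono h2
      rwa [aut_inv_apply] at this
    have := h.strictMono (hg.down _ a b)
    rwa [aut_apply_inv] at this
  slope := by rw [lam_conj hg.pl hh (hg.supp r (Or.inl le_rfl)), hg.slope]

lemma pow_le_of_le {g : Aut} (h : ∀ x, g x ≤ x) (n : ℕ) (x : ℝ) : (g ^ n) x ≤ x := by
  induction n with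
  | zero => simp
  | succ n ih => rw [pow_succ', aut_mul]; exact (h _).trans ih

lemma Bump.mem_zpow {g : Aut} {r s : ℝ} (hg : Bump g r s) (n : ℤ) {x : ℝ} (h1 : r < x)
    (h2 : x < s) : r < (g ^ n) x ∧ (g ^ n) x < s := by
  constructor
  · have := (g ^ n).strictMono h1
    rwa [zpow_fix (hg.supp r (Or.inl le_rfl))] at this
  · have := (g ^ n).strictMono h2
    rwa [zpow_fix (hg.supp s (Or.inr le_rfl))] at this

lemma Bump.reach {g : Aut} {r s : ℝ} (hg : Bump g r s) {x y : ℝ} (hx : x < s) (hy : r < y) :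
    ∃ n : ℕ, (g ^ n) x < y := by
  by_contra hcon
  push Not at hcon
  have hbdd : BddBelow (Set.range fun n : ℕ => (g ^ n) x) := ⟨y, by rintro _ ⟨n, rfl⟩; exact hcon n⟩
  set L := ⨅ n : ℕ, (g ^ n) x with hL
  have hyL : y ≤ L := le_ciInf hcon
  have hLx : L ≤ x := by simpa using ciInf_le hbdd 0
  have h1 : g L < L := hg.down L (by linarith) (by linarith)
  have h2 : L < g⁻¹ L := by
    have := (g⁻¹).strictMono h1
    rwa [aut_inv_apply] at this
  obtain ⟨n, hn⟩ := exists_lt_of_ciInf_lt (f := fun n : ℕ => (g ^ n) x) h2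
  have h3 := g.strictMono hn
  rw [aut_apply_inv, ← aut_mul, ← pow_succ'] at h3
  exact absurd (ciInf_le hbdd (n + 1)) (not_le.2 h3)

lemma Bump.zpow_lt {g : Aut} {r s : ℝ} (hg : Bump g r s) {x : ℝ} (h1 : r < x) (h2 : x < s) :
    StrictAnti (fun n : ℤ => (g ^ n) x) := by
  apply strictAnti_int_of_succ_lt
  intro n
  have := hg.mem_zpow n h1 h2
  have e : g ^ (n + 1) = g * g ^ n := by rw [add_comm, zpow_one_add]
  show (g ^ (n + 1)) x < (g ^ n) x
  rw [e, aut_mul]
  exact hg.down _ this.1 this.2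

lemma Bump.fix_left {g Y : Aut} {r s : ℝ} (hg : Bump g r s) (hc : Commute Y g) : Y r = r := by
  have key : ∀ Z : Aut, Commute Z g → r ≤ Z r := by
    intro Z hZ
    by_contra hlt
    push Not at hlt
    have h1 : r < Z⁻¹ r := by
      have := (Z⁻¹).strictMono hlt
      rwa [aut_inv_apply] at this
    obtain ⟨x, hx1, hx2⟩ := exists_between (lt_min h1 hg.lt)
    have hx3 : Z x < r := by
      have := Z.strictMono (hx2.trans_le (min_le_left _ _))
      rwa [aut_apply_inv] at this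
    have h2 : g (Z x) = Z x := hg.supp _ (Or.inl hx3.le)
    have h3 : Z (g x) = g (Z x) := by rw [← aut_mul, hZ.eq, aut_mul]
    have h4 := Z.strictMono (hg.down x hx1 (hx2.trans_le (min_le_right _ _)))
    rw [h3, h2] at h4
    exact lt_irrefl _ h4
  have h1 := key Y hc
  have h2 := key Y⁻¹ hc.inv_left
  have h3 := Y.monotone h2
  rw [aut_apply_inv] at h3
  exact le_antisymm h3 h1

lemma Bump.centralizer {g Y : Aut} {r s : ℝ} (hg : Bump g r s) (hY : Y ∈ PL) (hc : Commute Y g) :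
    ∃ m : ℤ, ∀ x, r ≤ x → x ≤ s → Y x = (g ^ m) x := by
  have hr := hg.fix_left hc
  have hgr : g r = r := hg.supp r (Or.inl le_rfl)
  set m := -lam Y r with hm
  set K := g ^ (-m) * Y with hK
  have hKpl : K ∈ PL := PL.mul_mem (PL.zpow_mem hg.pl _) hY
  have hKr : K r = r := by rw [hK, aut_mul, hr, zpow_fix hgr]
  have hKl : lam K r = 0 := by
    rw [hK, lam_mul (PL.zpow_mem hg.pl _) hY, hr, lam_zpow hg.pl hgr, hg.slope, hm]; ring
  have hKc : Commute K g := ((Commute.refl g).zpow_left _).mul_left hc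
  obtain ⟨δ, hδ, hK2⟩ := rs_lam hKpl r
  rw [hKl, hKr] at hK2
  have hopen : ∀ x, r ≤ x → x < s → K x = x := by
    intro x h1 h2
    obtain ⟨n, hn⟩ := hg.reach h2 (show r < r + δ by linarith)
    have h3 : r ≤ (g ^ n) x := by
      have := (g ^ n).monotone h1
      rwa [pow_fix hgr] at this
    have h4 : K ((g ^ n) x) = (g ^ n) x := by rw [hK2 _ h3 hn.le]; simp
    have h5 : K ((g ^ n) x) = (g ^ n) (K x) := by
      rw [← aut_mul, (hKc.pow_right n).eq, aut_mul]
    rw [h5] at h4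
    exact (g ^ n).injective h4
  have hclosed : ∀ x, r ≤ x → x ≤ s → K x = x := by
    intro x h1 h2
    rcases h2.lt_or_eq with h2 | rfl
    · exact hopen x h1 h2
    · apply le_antisymm
      · by_contra hcon
        push Not at hcon
        have h3 : K⁻¹ x < x := by
          have := (K⁻¹).strictMono hcon
          rwa [aut_inv_apply] at this
        obtain ⟨y, hy1, hy2⟩ := exists_between (max_lt h3 hg.lt)
        have h4 := K.strictMono ((le_max_left _ _).trans_lt hy1)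
        rw [aut_apply_inv, hopen y ((le_max_right _ _).trans hy1.le) hy2] at h4
        linarith
      · by_contra hcon
        push Not at hcon
        obtain ⟨y, hy1, hy2⟩ := exists_between (max_lt hcon hg.lt)
        have h4 := K.strictMono hy2
        rw [hopen y ((le_max_right _ _).trans hy1.le) hy2] at h4
        linarith [le_max_left (K x) r]
  refine ⟨m, fun x h1 h2 => ?_⟩
  have h3 := hclosed x h1 h2
  rw [hK, aut_mul, zpow_neg] at h3
  have := congrArg (g ^ m) h3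
  rwa [aut_apply_inv] at this

lemma Bump.kill {g γ Y : Aut} {r s r' s' : ℝ} (hg : Bump g r s) (hγ : Bump γ r' s')
    (h1 : r < r') (h2 : r' < s) (hY : Y ∈ PL) (hc : Commute Y g) (hc' : Commute Y γ) :
    ∀ x, r ≤ x → x ≤ s → Y x = x := by
  obtain ⟨m, hm⟩ := hg.centralizer hY hc
  have h3 := hγ.fix_left hc'
  rw [hm r' h1.le h2.le] at h3
  have h4 : m = 0 := (hg.zpow_lt h1 h2).injective (by simpa using h3)
  intro x hx1 hx2
  rw [hm x hx1 hx2, h4]; simp

end Pool.Agent.H336Z.ThF
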