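import Pool.Agent.H336Z.ThF.Basic
import Pool.Agent.H336Z.ThF.Alg

/-! The multiplication gadget on the interval `[0, 4]`. -/

namespace Pool.Agent.H336Z.ThF

open Pool.Agent.H929Z.ThF
open scoped commutatorElement

/-- the constants of the gadget -/
structure Setup (t α βr βs : Aut) (u : ℝ) : Prop where
  ht : Bump t 0 4
  hα : Bump α 2 u
  hu : u ≤ t⁻¹ 2
  hr : Bump βr 0 2
  hs : Bump βs 2 4

/-- orbit of the point `2` -/
noncomputable def U (t : Aut) (i : ℤ) : ℝ := (t ^ i) 2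

/-- `Y` acts on `[0,4]` as `t ^ n` -/
def Ag (t Y : Aut) (n : ℤ) : Prop := ∀ x, 0 ≤ x → x ≤ 4 → Y x = (t ^ n) x

lemma zpow_U (t : Aut) (n i : ℤ) : (t ^ n) (U t i) = U t (n + i) := by
  unfold U; rw [zpow_add, aut_mul]

section
variable {t α βr βs : Aut} {u : ℝ} (S : Setup t α βr βs u)
include S

lemma Setup.U_mem (i : ℤ) : 0 < U t i ∧ U t i < 4 := S.ht.mem_zpow i (by norm_num) (by norm_num)

lemma Setup.U_anti : StrictAnti (U t) := S.ht.zpow_lt (by norm_num) (by norm_num)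

lemma Setup.ag_mul {Y Z : Aut} {n m : ℤ} (h1 : Ag t Y n) (h2 : Ag t Z m) :
    Ag t (Y * Z) (n + m) := by
  intro x hx1 hx2
  have := (S.ht.supp.zpow m).maps hx1 hx2
  rw [aut_mul, h2 x hx1 hx2, h1 _ this.1 this.2, zpow_add, aut_mul]

lemma Setup.ag_inv {Y : Aut} {n : ℤ} (h1 : Ag t Y n) : Ag t Y⁻¹ (-n) := by
  intro x hx1 hx2
  have := (S.ht.supp.zpow (-n)).maps hx1 hx2
  apply inv_eq_of
  rw [h1 _ this.1 this.2, zpow_neg, aut_apply_inv]

omit S in
lemma ag_self (t : Aut) (n : ℤ) : Ag t (t ^ n) n := fun _ _ _ => rfl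

lemma Setup.ag_zpow {Y : Aut} {n : ℤ} (h1 : Ag t Y n) (k : ℤ) : Ag t (Y ^ k) (k * n) := by
  induction k using Int.induction_on with
  | zero => intro x _ _; simp
  | succ k ih =>
    rw [zpow_add_one, add_mul, one_mul]; exact S.ag_mul ih h1
  | pred k ih =>
    rw [zpow_sub_one, sub_mul, one_mul, sub_eq_add_neg]; exact S.ag_mul ih (S.ag_inv h1)

lemma Setup.ag_of_commute {Y : Aut} (hY : Y ∈ PL) (hc : Commute Y t) : ∃ n, Ag t Y n :=
  S.ht.centralizer hY hc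

lemma Setup.u_le : u ≤ U t (-1) := by unfold U; simpa using S.hu

lemma Setup.supp_α : Supp α (U t 0) (U t (-1)) :=
  S.hα.supp.mono (by simp [U]) S.u_le

lemma Setup.supp_α' : Supp α 0 4 :=
  S.supp_α.mono (S.U_mem _).1.le (S.U_mem _).2.le

lemma Setup.ag_zero {Y : Aut} {n : ℤ} (h1 : Ag t Y n) (hc : Commute Y α) : n = 0 := by
  have h2 := S.hα.fix_left hc
  rw [h1 2 (by norm_num) (by norm_num)] at h2
  exact S.U_anti.injective (by simpa [U] using h2)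

omit S in
lemma commute_of_ag {Y g : Aut} (h1 : Ag t Y 0) (hg : Supp g 0 4) : Commute Y g :=
  commute_of_id (by norm_num) hg (fun x a b => by rw [h1 x a b]; simp)

omit S in
lemma commute_t_of_ag (ht : Supp t 0 4) {Y : Aut} {n : ℤ} (h1 : Ag t Y n) : Commute Y t := by
  have h2 := conj_eq_of_agree (by norm_num) ht h1
  have h3 : t ^ n * t * (t ^ n)⁻¹ = t := by group
  rw [h3] at h2
  calc Y * t = (Y * t * Y⁻¹) * Y := by group
    _ = _ := by rw [h2]

/-- fixes the orbit -/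
def Dd (t f : Aut) : Prop := f ∈ PL ∧ ∀ i, f (U t i) = U t i

/-- slopes along the orbit -/
noncomputable def cc (t f : Aut) : ℤ → ℤ := fun i => lam f (U t i)

omit S in
lemma Dd.mul_inv {f g : Aut} (hf : Dd t f) (hg : Dd t g) :
    Dd t (f * g⁻¹) ∧ cc t (f * g⁻¹) = fun i => cc t f i - cc t g i := by
  refine ⟨⟨PL.mul_mem hf.1 (PL.inv_mem hg.1), fun i => by
    rw [aut_mul, fix_inv (hg.2 i), hf.2 i]⟩, ?_⟩
  funext i
  unfold cc
  have h1 := lam_inv hg.1 (U t i)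
  rw [hg.2 i] at h1
  rw [lam_mul hf.1 (PL.inv_mem hg.1), fix_inv (hg.2 i), h1]; ring

lemma Setup.dd_comm {f : Aut} (hf : Dd t f) (n : ℤ) :
    Dd t ⁅t ^ n, f⁆ ∧ cc t ⁅t ^ n, f⁆ = dlt n (cc t f) := by
  have htn : t ^ n ∈ PL := PL.zpow_mem S.ht.pl n
  have hU : ∀ i, U t i = (t ^ n) (U t (i - n)) := fun i => by rw [zpow_U]; congr 1; ring
  have h1 : Dd t (t ^ n * f * (t ^ n)⁻¹) := by
    refine ⟨PL.mul_mem (PL.mul_mem htn hf.1) (PL.inv_mem htn), fun i => ?_⟩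
    rw [hU i, aut_mul, aut_mul, aut_inv_apply, hf.2]
  have h2 : cc t (t ^ n * f * (t ^ n)⁻¹) = fun i => cc t f (i - n) := by
    funext i
    unfold cc
    rw [hU i, lam_conj hf.1 htn (hf.2 _)]
  rw [commutatorElement_def]
  refine ⟨(h1.mul_inv hf).1, ?_⟩
  rw [(h1.mul_inv hf).2, h2]; rfl

lemma Setup.dd_comm1 {f : Aut} (hf : Dd t f) :
    Dd t ⁅t, f⁆ ∧ cc t ⁅t, f⁆ = dlt 1 (cc t f) := by
  simpa using S.dd_comm hf 1

lemma Setup.dd_α : Dd t α ∧ ∀ i, cc t α i = if i = 0 then -1 else 0 := by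
  refine ⟨⟨S.hα.pl, fun i => S.supp_α _ ?_⟩, fun i => ?_⟩
  · rcases le_or_gt 0 i with h | h
    · exact Or.inl (S.U_anti.antitone h)
    · exact Or.inr (S.U_anti.antitone (by omega))
  · unfold cc
    split_ifs with h
    · subst h
      simpa [U] using S.hα.slope
    · rcases lt_or_gt_of_ne h with h | h
      · refine (RS.of_id one_pos fun y h1 _ => S.supp_α _ (Or.inr ?_)).lam_eq
        exact (S.U_anti.antitone (show i ≤ -1 by omega)).trans h1
      · have h2 : U t i < U t 0 := S.U_anti h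
        refine (RS.of_id (δ := U t 0 - U t i) (by linarith) fun y _ h1 =>
          S.supp_α _ (Or.inl (by linarith))).lam_eq

omit S in
lemma tail_comm {z : Aut} {N : ℤ} (h : ∀ i, N ≤ i → z (U t i) = U t i) :
    ∀ i, N + 1 ≤ i → ⁅t, z⁆ (U t i) = U t i := by
  intro i hi
  have h1 : t⁻¹ (U t i) = U t (i - 1) := by
    have := zpow_U t (-1) i
    rw [zpow_neg_one] at this
    rw [this]; congr 1; ring
  rw [commutatorElement_def, aut_mul, aut_mul, aut_mul, fix_inv (h i (by omega)), h1,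
    h (i - 1) (by omega), ← h1, aut_apply_inv]

omit S in
lemma lift_fix {z : Aut} {N : ℤ} (h : ∀ i, N ≤ i → z (U t i) = U t i)
    (h2 : ∀ i, ⁅t, z⁆ (U t i) = U t i) : ∀ i, z (U t i) = U t i := by
  have key : ∀ k : ℕ, z (U t (N - k)) = U t (N - k) := by
    intro k
    induction k with
    | zero => exact h _ (by simp)
    | succ k ih =>
      have h1 : t⁻¹ (U t (N - k)) = U t (N - (k + 1 : ℕ)) := by
        have := zpow_U t (-1) (N - k)
        rw [zpow_neg_one] at this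
        rw [this]; congr 1; push_cast; ring
      have h3 := h2 (N - k)
      rw [commutatorElement_def, aut_mul, aut_mul, aut_mul, fix_inv ih, h1] at h3
      have h4 := inv_eq_of h3
      rw [h1] at h4
      exact h4.symm
  intro i
  rcases le_or_gt N i with hi | hi
  · exact h i hi
  · have := key (N - i).toNat
    rwa [show N - ((N - i).toNat : ℤ) = i by omega] at this

lemma Setup.sound_pure {z : Aut} (hz : z ∈ PL) (j : ℤ)
    (h1 : ∀ x, 0 ≤ x → x ≤ U t j → z x = x) (h2 : ∀ x, U t (-j) ≤ x → x ≤ 4 → z x = x)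
    {n m k : ℤ} (h : ⁅t ^ n, ⁅t ^ m, α⁆⁆ * ⁅t ^ k, ⁅t, α⁆⁆⁻¹ = ⁅t, ⁅t, ⁅t, z⁆⁆⁆) : n * m = k := by
  obtain ⟨hα, hcα⟩ := S.dd_α
  obtain ⟨a1, a2⟩ := S.dd_comm hα m
  obtain ⟨b1, b2⟩ := S.dd_comm a1 n
  obtain ⟨c1, c2⟩ := S.dd_comm1 hα
  obtain ⟨d1, d2⟩ := S.dd_comm c1 k
  obtain ⟨e1, e2⟩ := b1.mul_inv d1
  rw [h] at e1 e2
  rw [b2, a2, d2, c2] at e2
  have t0 : ∀ i, j ≤ i → z (U t i) = U t i := fun i hi =>
    h1 _ (S.U_mem i).1.le (S.U_anti.antitone hi)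
  have t1 := tail_comm t0
  have t2 := tail_comm t1
  have f2 := lift_fix t2 e1.2
  have f1 := lift_fix t1 f2
  have f0 := lift_fix t0 f1
  have hz' : Dd t z := ⟨hz, f0⟩
  obtain ⟨g1, g2⟩ := S.dd_comm1 hz'
  obtain ⟨g3, g4⟩ := S.dd_comm1 g1
  obtain ⟨_, g6⟩ := S.dd_comm1 g3
  rw [g6, g4, g2] at e2
  refine moment (c := cc t z) ⟨|j| + 1, fun i hi => ?_⟩ hcα n m k e2.symm
  have hj1 := le_abs_self j
  have hj2 := neg_abs_le j
  unfold cc
  rcases hi with hi | hi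
  · have h3 : U t i < U t j := S.U_anti (by omega)
    exact (RS.of_id (δ := U t j - U t i) (by linarith) fun y hy1 hy2 =>
      h1 y ((S.U_mem i).1.le.trans hy1) (by linarith)).lam_eq
  · have h3 : U t (-j) ≤ U t i := S.U_anti.antitone (by omega)
    have h4 := (S.U_mem i).2
    exact (RS.of_id (δ := 4 - U t i) (by linarith) fun y hy1 hy2 =>
      h2 y (h3.trans hy1) (by linarith)).lam_eq

lemma Setup.supp_r : Supp βr 0 4 := S.hr.supp.mono le_rfl (by norm_num)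
lemma Setup.supp_s : Supp βs 0 4 := S.hs.supp.mono (by norm_num) le_rfl

lemma Setup.supp_conj {g : Aut} (hg : Supp g 0 4) (n : ℤ) : Supp (t ^ n * g * (t ^ n)⁻¹) 0 4 :=
  ((S.ht.supp.zpow n).mul hg).mul (S.ht.supp.zpow n).inv

/-- the five equations of the gadget -/
def Gad (t α βr βs E T N J z : Aut) : Prop :=
  ⁅z, J * βr * J⁻¹⁆ = 1 ∧ ⁅z, J * (t * α * t⁻¹) * J⁻¹⁆ = 1 ∧
  ⁅z, J⁻¹ * βs * J⁻¹⁻¹⁆ = 1 ∧ ⁅z, J⁻¹ * (t⁻¹ * α * t⁻¹⁻¹) * J⁻¹⁻¹⁆ = 1 ∧
  ⁅E, ⁅T, α⁆⁆ * ⁅N, ⁅t, α⁆⁆⁻¹ * ⁅t, ⁅t, ⁅t, z⁆⁆⁆⁻¹ = 1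

lemma Setup.main_eq {E T N : Aut} {n m k : ℤ} (hE : Ag t E n) (hT : Ag t T m) (hN : Ag t N k) :
    ⁅E, ⁅T, α⁆⁆ * ⁅N, ⁅t, α⁆⁆⁻¹ = ⁅t ^ n, ⁅t ^ m, α⁆⁆ * ⁅t ^ k, ⁅t, α⁆⁆⁻¹ := by
  rw [comm_eq_of_agree (by norm_num) S.supp_α' hT,
    comm_eq_of_agree (by norm_num) ((S.ht.supp.zpow m).comm S.supp_α') hE,
    comm_eq_of_agree (by norm_num) (S.ht.supp.comm S.supp_α') hN]

lemma Setup.sound {E T N J z : Aut} {n m k j : ℤ} (hE : Ag t E n) (hT : Ag t T m) (hN : Ag t N k)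
    (hJ : Ag t J j) (hJp : J ∈ PL) (hz : z ∈ PL) (h : Gad t α βr βs E T N J z) : n * m = k := by
  obtain ⟨g1, g2, g3, g4, g5⟩ := h
  rw [commutatorElement_eq_one_iff_commute] at g1 g2 g3 g4
  rw [mul_inv_eq_one, S.main_eq hE hT hN] at g5
  have hJ' := S.ag_inv hJ
  have b1 := S.hr.conj hJp
  have b2 := (S.hα.conj S.ht.pl).conj hJp
  have b3 := S.hs.conj (PL.inv_mem hJp)
  have b4 := (S.hα.conj (PL.inv_mem S.ht.pl)).conj (PL.inv_mem hJp)
  have e1 : t 2 = U t 1 := by simp [U]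
  have e2 : t⁻¹ 2 = U t (-1) := by simp [U]
  have e0 : U t 0 = 2 := by simp [U]
  have k1 := b1.kill b2 (J.strictMono (by rw [e1]; exact (S.U_mem 1).1))
    (J.strictMono (by rw [e1, ← e0]; exact S.U_anti (by norm_num))) hz g1 g2
  have k2 := b3.kill b4 ((J⁻¹).strictMono (by rw [e2, ← e0]; exact S.U_anti (by norm_num)))
    ((J⁻¹).strictMono (by rw [e2]; exact (S.U_mem _).2)) hz g3 g4
  rw [hJ 0 le_rfl (by norm_num), hJ 2 (by norm_num) (by norm_num),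
    zpow_fix (S.ht.supp 0 (Or.inl le_rfl))] at k1
  rw [hJ' 4 (by norm_num) le_rfl, hJ' 2 (by norm_num) (by norm_num),
    zpow_fix (S.ht.supp 4 (Or.inr le_rfl))] at k2
  exact S.sound_pure hz j k1 k2 g5

lemma Setup.complete (H : Subgroup Aut) (htH : t ∈ H) (hαH : α ∈ H) (n m : ℤ) :
    ∃ z ∈ H, ∃ j : ℤ, Supp z 0 4 ∧ ∀ E T N J z' : Aut, Ag t E n → Ag t T m → Ag t N (n * m) →
      Ag t J j → (∀ x, 0 ≤ x → x ≤ 4 → z' x = z x) → Gad t α βr βs E T N J z' := by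
  let A : ℤ → Aut := fun i => t ^ i * α * (t ^ i)⁻¹
  have hA : ∀ i, Supp (A i) (U t i) (U t (i - 1)) := fun i => by
    have := S.supp_α.conj (t ^ i)
    rwa [zpow_U, zpow_U, add_zero, ← sub_eq_add_neg] at this
  have hAc : ∀ i j, Commute (A i) (A j) := by
    intro i j
    rcases lt_trichotomy i j with h | rfl | h
    · exact (commute_of_disj (hA j) (hA i) (S.U_anti.antitone (by omega))).symm
    · exact Commute.refl _
    · exact commute_of_disj (hA i) (hA j) (S.U_anti.antitone (by omega))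
  let B := Subgroup.closure (Set.range A)
  have hB : ∀ x ∈ B, ∀ y ∈ B, x * y = y * x := by
    intro x hx y hy
    have := Subgroup.isMulCommutative_closure (k := Set.range A) (by
      rintro _ ⟨i, rfl⟩ _ ⟨j, rfl⟩
      exact (hAc i j).eq)
    exact congrArg Subtype.val (this.is_comm.comm (⟨x, hx⟩ : B) ⟨y, hy⟩)
  have hBt : ∀ k : ℤ, ∀ x ∈ B, t ^ k * x * (t ^ k)⁻¹ ∈ B := by
    intro k x hx
    induction hx using Subgroup.closure_induction with
    | mem x hx =>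
      obtain ⟨i, rfl⟩ := hx
      refine Subgroup.subset_closure ⟨k + i, ?_⟩
      simp only [A, zpow_add]; group
    | one => simpa using B.one_mem
    | mul x y _ _ hx hy =>
      have : t ^ k * (x * y) * (t ^ k)⁻¹ = (t ^ k * x * (t ^ k)⁻¹) * (t ^ k * y * (t ^ k)⁻¹) := by
        group
      rw [this]; exact B.mul_mem hx hy
    | inv x _ hx =>
      have : t ^ k * x⁻¹ * (t ^ k)⁻¹ = (t ^ k * x * (t ^ k)⁻¹)⁻¹ := by group
      rw [this]; exact B.inv_mem hx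
  have hαB : α ∈ B := Subgroup.subset_closure ⟨0, by simp [A]⟩
  have hBH : B ≤ H := by
    rw [Subgroup.closure_le]
    rintro _ ⟨i, rfl⟩
    exact H.mul_mem (H.mul_mem (H.zpow_mem htH i) hαH) (H.inv_mem (H.zpow_mem htH i))
  have hBs : ∀ x ∈ B, ∃ j : ℤ, Supp x (U t j) (U t (-j)) := by
    intro x hx
    induction hx using Subgroup.closure_induction with
    | mem x hx =>
      obtain ⟨i, rfl⟩ := hx
      have h1 := le_abs_self i
      have h2 := neg_abs_le i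
      exact ⟨|i| + 1, (hA i).mono (S.U_anti.antitone (by omega)) (S.U_anti.antitone (by omega))⟩
    | one => exact ⟨0, Supp.one _ _⟩
    | mul x y _ _ hx hy =>
      obtain ⟨i, hi⟩ := hx
      obtain ⟨j, hj⟩ := hy
      refine ⟨max i j, (hi.mono (S.U_anti.antitone (by omega)) (S.U_anti.antitone (by omega))).mul
        (hj.mono (S.U_anti.antitone (by omega)) (S.U_anti.antitone (by omega)))⟩
    | inv x _ hx =>
      obtain ⟨i, hi⟩ := hx
      exact ⟨i, hi.inv⟩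
  obtain ⟨z, hzB, hz⟩ := exists_z B hB t hBt hαB n m
  obtain ⟨j, hj⟩ := hBs z hzB
  have hz4 : Supp z 0 4 := hj.mono (S.U_mem _).1.le (S.U_mem _).2.le
  refine ⟨z, hBH hzB, j, hz4, fun E T N J z' hE hT hN hJ hz' => ?_⟩
  have hJ' := S.ag_inv hJ
  have low : ∀ g : Aut, Supp g 0 2 → ⁅z', J * g * J⁻¹⁆ = 1 := by
    intro g hg
    have hg4 : Supp g 0 4 := hg.mono le_rfl (by norm_num)
    rw [conj_eq_of_agree (by norm_num) hg4 hJ,
      comm_eq_of_agree (by norm_num) (S.supp_conj hg4 j) hz', commutatorElement_eq_one_iff_commute]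
    exact (commute_of_disj (hg.conj (t ^ j)) hj le_rfl).symm
  have high : ∀ g : Aut, Supp g 2 4 → ⁅z', J⁻¹ * g * J⁻¹⁻¹⁆ = 1 := by
    intro g hg
    have hg4 : Supp g 0 4 := hg.mono (by norm_num) le_rfl
    rw [conj_eq_of_agree (by norm_num) hg4 hJ',
      comm_eq_of_agree (by norm_num) (S.supp_conj hg4 (-j)) hz',
      commutatorElement_eq_one_iff_commute]
    exact commute_of_disj hj (hg.conj (t ^ (-j))) le_rfl
  have e0 : U t 0 = 2 := by simp [U]
  refine ⟨low _ S.hr.supp, low _ ?_, high _ S.hs.supp, high _ ?_, ?_⟩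
  · have := hA 1
    simp only [A, zpow_one] at this
    exact this.mono (S.U_mem _).1.le (by rw [sub_self, e0])
  · have := hA (-1)
    simp only [A, zpow_neg_one] at this
    exact this.mono (by rw [← e0]; exact S.U_anti.antitone (by norm_num)) (S.U_mem _).2.le
  · rw [mul_inv_eq_one, S.main_eq hE hT hN, hz, comm_eq_of_agree' (by norm_num) S.ht.supp hz']

end

end Pool.Agent.H336Z.ThF
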