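import Pool.Agent.H336Z.ThF.Words

/-! Undecidability of single equations over a group isomorphic to the model. -/

namespace Pool.Agent.H336Z.ThF

open Pool.Agent.H929Z.ThF Pool.Agent.Helper844.Sys Pool.Agent.Helper844.Dio

abbrev Wd := List ((ℕ ⊕ Bool) × Bool)

def rep (B : Wd) (n : ℕ) : Wd := Nat.rec [] (fun _ ih => B ++ ih) n

lemma mk_rep (B : Wd) (n : ℕ) : FreeGroup.mk (rep B n) = FreeGroup.mk B ^ n := by
  induction n with
  | zero => simp [rep, FreeGroup.one_eq_mk]
  | succ n ih =>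
    have : rep B (n + 1) = B ++ rep B n := rfl
    rw [this, ← FreeGroup.mul_mk, ih, pow_succ']

lemma rep_primrec (B : Wd) : Primrec (rep B) :=
  Primrec.nat_rec₁ [] ((Primrec.list_append.comp (Primrec.const B) Primrec.snd).to₂)

theorem undecidable {G : Type} [Group G] (x : Bool → G) (hrel : FRel (x false) (x true))
    (hgen : Subgroup.closure {x false, x true} = ⊤) (π : G →* Aut) (ha : π (x false) = TA)
    (hb : π (x true) = TB) :
    ¬ ComputablePred (fun w : Wd => ∃ σ : ℕ → G,
      FreeGroup.lift (Sum.elim σ x) (FreeGroup.mk w) = 1) := by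
  classical
  intro hC
  have hinj := faithful hrel hgen π ha hb
  have hrange : ∀ g, g ∈ HF ↔ ∃ y, π y = g := by
    intro g
    have : π.range = HF := by
      rw [MonoidHom.range_eq_map, ← hgen, MonoidHom.map_closure, Set.image_pair, ha, hb]; rfl
    rw [← this, MonoidHom.mem_range]
  have hπ : ∀ (σ : ℕ → G) (w : FreeGroup (ℕ ⊕ Bool)),
      π (FreeGroup.lift (Sum.elim σ x) w) = evw (fun i => π (σ i)) w := by
    intro σ w
    have : π.comp (FreeGroup.lift (Sum.elim σ x)) = evw (fun i => π (σ i)) := by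
      ext i
      rcases i with i | b
      · simp [evw]
      · cases b <;> simp [evw, gens, ha, hb]
    exact DFunLike.congr_fun this w
  have hsat : ∀ w : FreeGroup (ℕ ⊕ Bool), (∃ σ : ℕ → G, FreeGroup.lift (Sum.elim σ x) w = 1) ↔
      ∃ σ : ℕ → Aut, (∀ i, σ i ∈ HF) ∧ evw σ w = 1 := by
    intro w
    constructor
    · rintro ⟨σ, h⟩
      exact ⟨fun i => π (σ i), fun i => (hrange _).2 ⟨_, rfl⟩, by rw [← hπ, h, map_one]⟩
    · rintro ⟨σ, h1, h2⟩
      choose τ hτ using fun i => (hrange _).1 (h1 i)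
      refine ⟨τ, hinj ?_⟩
      rw [hπ, map_one, ← h2]
      congr 2
      funext i; exact hτ i
  let S : ℕ → Prop := fun k =>
    (Nat.Partrec.Code.eval (Denumerable.ofNat Nat.Partrec.Code k) 0).Dom
  have hS : REPred S :=
    (Nat.Partrec.Code.eval_part.comp (Computable.ofNat _) (Computable.const 0)).dom_re
  obtain ⟨V, _, f, L, hL⟩ := exists_system S (dprm hS)
  obtain ⟨P₁, u, P₂, P₃, ⟨w₁, h₁⟩, ⟨wu, hu⟩, ⟨w₂, h₂⟩, ⟨w₃, h₃⟩, hP⟩ := coding f L
  let F : ℕ → Wd := fun n =>
    w₁.toWord ++ rep wu.toWord n ++ w₂.toWord ++ rep wu⁻¹.toWord n ++ w₃.toWord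
  have hF : Primrec F :=
    Primrec.list_append.comp (Primrec.list_append.comp (Primrec.list_append.comp
      (Primrec.list_append.comp (Primrec.const _) (rep_primrec _)) (Primrec.const _))
      (rep_primrec _)) (Primrec.const _)
  have hFS : ∀ n, (∃ σ : ℕ → G, FreeGroup.lift (Sum.elim σ x) (FreeGroup.mk (F n)) = 1) ↔ S n := by
    intro n
    rw [hsat]
    have e : FreeGroup.mk (F n) = w₁ * wu ^ n * w₂ * wu⁻¹ ^ n * w₃ := by
      simp only [F, ← FreeGroup.mul_mk, mk_rep, FreeGroup.mk_toWord]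
    simp only [e, map_mul, map_pow, map_inv, ← h₁, ← hu, ← h₂, ← h₃]
    rw [hP n, hL]
    constructor
    · rintro ⟨m, hm, h⟩
      have : n = m := by omega
      rwa [this]
    · exact fun h => ⟨n, h, rfl⟩
  obtain ⟨g, hg, hg2⟩ := ComputablePred.computable_iff.1 hC
  apply ComputablePred.halting_problem 0
  refine ComputablePred.computable_iff.2 ⟨fun c => g (F (Encodable.encode c)),
    hg.comp (hF.to_comp.comp Computable.encode), ?_⟩
  funext c
  have h1 := congrFun hg2 (F (Encodable.encode c))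
  refine Eq.trans ?_ h1
  rw [hFS]
  simp [S]

end Pool.Agent.H336Z.ThF
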