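import Pool.Agent.H336Z.ThF.Gadget

/-! The group generated by `TA`, `TB`: bumps, the confinement map, faithfulness. -/

namespace Pool.Agent.H336Z.ThF

open Pool.Agent.H929Z.ThF
open scoped commutatorElement

/-- the image of Thompson's group -/
noncomputable def HF : Subgroup Aut := Subgroup.closure {TA, TB}

lemma TA_mem : TA ∈ HF := Subgroup.subset_closure (by simp)
lemma TB_mem : TB ∈ HF := Subgroup.subset_closure (by simp)

lemma TA_pl : TA ∈ PL := fun x =>
  ⟨0, 1, one_pos, fun y _ _ => by rw [TA_apply, TA_apply]; simp⟩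

lemma TB_mid {x : ℝ} (h1 : 0 ≤ x) (h2 : x ≤ 2) : TB x = x / 2 := by
  rw [TB_apply]; unfold bfun
  rw [min_eq_right (by linarith), max_eq_right (by linarith)]

lemma TB_rs {x : ℝ} (h1 : 0 ≤ x) (h2 : x < 2) : RS TB x (-1) :=
  ⟨2 - x, by linarith, fun y a b => by
    rw [TB_mid (by linarith) (by linarith), TB_mid h1 h2.le, zpow_neg_one]; ring⟩

lemma TB_pl : TB ∈ PL := by
  intro x
  rcases lt_or_ge x 0 with h | h
  · exact ⟨0, RS.of_id (δ := -x) (by linarith) fun y _ b => TB_low (by linarith)⟩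
  rcases lt_or_ge x 2 with h' | h'
  · exact ⟨_, TB_rs h h'⟩
  · exact ⟨0, 1, one_pos, fun y a _ => by
      rw [TB_high (by linarith), TB_high h']; simp⟩

lemma HF_le : HF ≤ PL := by
  unfold HF
  rw [Subgroup.closure_le]
  rintro x (rfl | rfl)
  · exact TA_pl
  · exact TB_pl

lemma TA_zpow (k : ℤ) (x : ℝ) : (TA ^ k) x = x - k := by
  rcases Int.eq_nat_or_neg k with ⟨n, rfl | rfl⟩
  · rw [zpow_natCast, TA_pow]; simp
  · rw [zpow_neg, zpow_natCast]
    apply inv_eq_of
    rw [TA_pow]; push_cast; ring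

lemma exists_bump0 (m : ℤ) (hm : 1 ≤ m) : ∃ g ∈ HF, Bump g 0 (m + 1) := by
  have hmr : (1 : ℝ) ≤ m := by exact_mod_cast hm
  let X : Aut := TA ^ (-m) * TB * TA ^ m
  have hX : ∀ y, X y = TB (y - m) + m := fun y => by
    simp only [X, aut_mul, TA_zpow]; push_cast; ring
  have hXH : X ∈ HF :=
    HF.mul_mem (HF.mul_mem (HF.zpow_mem TA_mem _) TB_mem) (HF.zpow_mem TA_mem _)
  have hlow : ∀ y : ℝ, y ≤ m → X⁻¹ y = y := fun y hy =>
    fix_inv (by rw [hX, TB_low (by linarith)]; ring)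
  have hhigh : ∀ y, (m : ℝ) + 1 ≤ y → X⁻¹ y = y + 1 := fun y hy =>
    inv_eq_of (by rw [hX, TB_high (by linarith)]; ring)
  have hg : TB * X⁻¹ ∈ HF := HF.mul_mem TB_mem (HF.inv_mem hXH)
  refine ⟨TB * X⁻¹, hg, by linarith, HF_le hg, ?_, ?_, ?_⟩
  · rintro x (h | h)
    · rw [aut_mul, hlow x (by linarith), TB_low h]
    · rw [aut_mul, hhigh x h, TB_high (by linarith)]; ring
  · intro x h1 h2
    obtain ⟨y, rfl⟩ := X.surjective x
    have a1 : 0 < y := by
      have := (X⁻¹).strictMono h1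
      rwa [aut_inv_apply, hlow 0 (by linarith)] at this
    have a2 : y < m + 2 := by
      have := (X⁻¹).strictMono h2
      rw [aut_inv_apply, hhigh _ le_rfl] at this
      linarith
    rw [aut_mul, aut_inv_apply, hX, TB_apply, TB_apply]
    unfold bfun
    rw [min_eq_right (by linarith : y / 2 ≤ y), max_lt_iff]
    rcases le_total y m with h | h
    · rw [min_eq_left (by linarith), max_eq_right (by linarith)]
      constructor <;> linarith
    · rw [min_eq_right (by linarith), max_eq_right (by linarith)]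
      constructor <;> linarith
  · have h1 : RS X⁻¹ 0 0 := RS.of_id one_pos fun y _ b => hlow y (by linarith)
    have h2 : RS TB (X⁻¹ 0) (-1) := by
      rw [hlow 0 (by linarith)]; exact TB_rs le_rfl (by norm_num)
    simpa using (h2.mul h1).lam_eq

lemma exists_bump (r s : ℤ) (h : r + 2 ≤ s) : ∃ g ∈ HF, Bump g r s := by
  obtain ⟨g, hg, hb⟩ := exists_bump0 (s - r - 1) (by omega)
  have hT : TA ^ (-r) ∈ HF := HF.zpow_mem TA_mem _
  refine ⟨_, HF.mul_mem (HF.mul_mem hT hg) (HF.inv_mem hT), ?_⟩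
  have := hb.conj (HF_le hT)
  rw [TA_zpow, TA_zpow] at this
  convert this using 1 <;> push_cast <;> ring

lemma exists_setup : ∃ t ∈ HF, ∃ α ∈ HF, ∃ βr ∈ HF, ∃ βs ∈ HF, ∃ u, Setup t α βr βs u := by
  obtain ⟨t, ht, bt⟩ := exists_bump 0 4 (by norm_num)
  obtain ⟨βr, hr, br⟩ := exists_bump 0 2 (by norm_num)
  obtain ⟨βs, hs, bs⟩ := exists_bump 2 4 (by norm_num)
  obtain ⟨β, hβ, bβ⟩ := exists_bump 2 5 (by norm_num)
  push_cast at bt br bs bβ
  have h1 : 2 < t⁻¹ 2 := by
    have := (t⁻¹).strictMono (bt.down 2 (by norm_num) (by norm_num))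
    rwa [aut_inv_apply] at this
  obtain ⟨N, hN⟩ := bβ.reach (show (4 : ℝ) < 5 by norm_num) h1
  have hβN : β ^ N ∈ HF := HF.pow_mem hβ N
  have b := bs.conj (HF_le hβN)
  rw [pow_fix (bβ.supp 2 (Or.inl le_rfl))] at b
  exact ⟨t, ht, _, HF.mul_mem (HF.mul_mem hβN hs) (HF.inv_mem hβN), βr, hr, βs, hs, _,
    bt, b, hN.le, br, bs⟩

/-- one confinement step -/
def step {G : Type*} [Group G] (a d X : G) : G :=
  (X * a * X⁻¹) * d * (X * a * X⁻¹)⁻¹ * (a * d * a⁻¹)⁻¹

lemma step_eq {G : Type*} [Group G] {a d k : G} (h : Commute k d) :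
    step a d k = k * (a * d * a⁻¹) * k⁻¹ * (a * d * a⁻¹)⁻¹ := by
  unfold step
  have : k⁻¹ * d * k = d := by
    rw [mul_assoc, ← h.eq]; group
  calc _ = k * a * (k⁻¹ * d * k) * a⁻¹ * k⁻¹ * (a * d * a⁻¹)⁻¹ := by group
    _ = _ := by rw [this]; group

lemma conj_le {a : Aut} (h : ∀ x, a x ≤ x) (X : Aut) (x : ℝ) : (X * a * X⁻¹) x ≤ x := by
  have := X.monotone (h (X⁻¹ x))
  rwa [aut_apply_inv] at this

lemma conj_ge {a : Aut} (h : ∀ x, x ≤ a x) (X : Aut) (x : ℝ) : x ≤ (X * a * X⁻¹) x := by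
  have := X.monotone (h (X⁻¹ x))
  rwa [aut_apply_inv] at this

lemma exists_phi : ∃ a ∈ HF, ∃ d ∈ HF, ∃ e ∈ HF, ∃ f ∈ HF,
    (∀ X : Aut, Supp (step e f (step a d X)) (-3) 12) ∧
    ∀ k : Aut, Supp k 0 4 → ∀ x, 0 ≤ x → x ≤ 4 → step e f (step a d k) x = k x := by
  obtain ⟨β1, h1, b1⟩ := exists_bump (-1) 5 (by norm_num)
  obtain ⟨β2, h2, b2⟩ := exists_bump (-2) 6 (by norm_num)
  obtain ⟨β3, h3, b3⟩ := exists_bump (-3) 7 (by norm_num)
  push_cast at b1 b2 b3
  obtain ⟨N1, hN1⟩ := b1.reach (show (4 : ℝ) < 5 by norm_num) (show (-1 : ℝ) < 0 by norm_num)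
  obtain ⟨N2, hN2⟩ := b2.reach (show (4 : ℝ) < 6 by norm_num) (show (-2 : ℝ) < -1 by norm_num)
  obtain ⟨N3, hN3⟩ := b3.reach (show (6 : ℝ) < 7 by norm_num) (show (-3 : ℝ) < -1 by norm_num)
  set a : Aut := TA ^ (7 : ℤ) with ha
  set d' : Aut := (β1 ^ N1)⁻¹ with hd'
  set f' : Aut := (β2 ^ N2)⁻¹ with hf'
  set e : Aut := (β3 ^ N3)⁻¹ with he
  have haH : a ∈ HF := HF.zpow_mem TA_mem _
  have hdH : d' ∈ HF := HF.inv_mem (HF.pow_mem h1 _)
  have hfH : f' ∈ HF := HF.inv_mem (HF.pow_mem h2 _)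
  have heH : e ∈ HF := HF.inv_mem (HF.pow_mem h3 _)
  have sd' : Supp d' (-1) 5 := (b1.supp.pow N1).inv
  have sf' : Supp f' (-2) 6 := (b2.supp.pow N2).inv
  have se : Supp e (-3) 7 := (b3.supp.pow N3).inv
  have hainv : ∀ x, a⁻¹ x = x + 7 := fun x => by
    rw [ha, ← zpow_neg, TA_zpow]; push_cast; ring
  have sd : Supp (a⁻¹ * d' * a⁻¹⁻¹) 6 12 := by
    have := sd'.conj a⁻¹
    rw [hainv, hainv] at this
    exact this.mono (by norm_num) (by norm_num)
  have sf : Supp (e⁻¹ * f' * e⁻¹⁻¹) (-3) (-1) := by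
    refine (sf'.conj e⁻¹).mono (se.inv.maps (by norm_num) (by norm_num)).1 ?_
    rw [he, inv_inv]; exact hN3.le
  have ea : a * (a⁻¹ * d' * a⁻¹⁻¹) * a⁻¹ = d' := by group
  have ee : e * (e⁻¹ * f' * e⁻¹⁻¹) * e⁻¹ = f' := by group
  have hale : ∀ x, a x ≤ x := fun x => by rw [ha, TA_zpow]; push_cast; linarith
  have hege : ∀ x, x ≤ e x := fun x => by
    have := (β3 ^ N3)⁻¹.monotone (pow_le_of_le b3.le N3 x)
    rwa [aut_inv_apply] at this
  refine ⟨a, haH, a⁻¹ * d' * a⁻¹⁻¹, HF.mul_mem (HF.mul_mem (HF.inv_mem haH) hdH)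
    (HF.inv_mem (HF.inv_mem haH)), e, heH, e⁻¹ * f' * e⁻¹⁻¹,
    HF.mul_mem (HF.mul_mem (HF.inv_mem heH) hfH) (HF.inv_mem (HF.inv_mem heH)), ?_, ?_⟩
  · intro X
    set Y := step a (a⁻¹ * d' * a⁻¹⁻¹) X with hY
    have hY12 : ∀ x, 12 ≤ x → Y x = x := by
      intro x hx
      rw [hY]
      unfold step
      rw [ea, aut_mul, sd'.inv x (Or.inr (by linarith))]
      exact sd.conj _ x (Or.inr ((conj_le hale X 12).trans hx))
    unfold step
    rw [ee]
    refine Supp.mul ((sf.conj _).mono (conj_ge hege Y _) ?_) (sf'.inv.mono (by norm_num) (by norm_num))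
    have h12 : (Y * e * Y⁻¹) 12 = 12 := by
      rw [aut_mul, aut_mul, fix_inv (hY12 12 le_rfl), se 12 (Or.inr (by norm_num)), hY12 12 le_rfl]
    have := (Y * e * Y⁻¹).monotone (show (-1 : ℝ) ≤ 12 by norm_num)
    rwa [h12] at this
  · intro k hk x hx1 hx2
    have c1 : Commute k (a⁻¹ * d' * a⁻¹⁻¹) := commute_of_disj hk sd (by norm_num)
    set Y := step a (a⁻¹ * d' * a⁻¹⁻¹) k with hY
    have hYe : Y = k * d' * k⁻¹ * d'⁻¹ := by rw [hY, step_eq c1, ea]
    have hk' : Supp k (-1) 5 := hk.mono (by norm_num) (by norm_num)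
    have sY : Supp Y (-1) 5 := by
      rw [hYe]; exact ((hk'.mul sd').mul hk'.inv).mul sd'.inv
    have c2 : Commute Y (e⁻¹ * f' * e⁻¹⁻¹) := (commute_of_disj sf sY le_rfl).symm
    rw [step_eq c2, ee]
    have q1 : f'⁻¹ x ≤ -1 := by
      rw [hf', inv_inv]; exact ((β2 ^ N2).monotone hx2).trans hN2.le
    have q2 : d'⁻¹ x ≤ 0 := by
      rw [hd', inv_inv]; exact ((β1 ^ N1).monotone hx2).trans hN1.le
    rw [aut_mul, aut_mul, aut_mul, sY.inv _ (Or.inl q1), aut_apply_inv, hYe, aut_mul, aut_mul,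
      aut_mul, hk.inv _ (Or.inl q2), aut_apply_inv]

/-! ### faithfulness -/

lemma ins_ge {i j : ℕ} {p : List ℕ} (hj : i ≤ j) (hp : ∀ x ∈ p, i ≤ x) :
    ∀ x ∈ ins j p, i ≤ x := by
  induction p generalizing j with
  | nil => intro x hx; simp [ins] at hx; omega
  | cons a p ih =>
    intro x hx
    unfold ins at hx
    split_ifs at hx with h
    · rcases List.mem_cons.1 hx with rfl | hx
      · exact hp _ List.mem_cons_self
      · exact ih (by omega) (fun y hy => hp y (List.mem_cons_of_mem _ hy)) x hx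
    · rcases List.mem_cons.1 hx with rfl | hx
      · exact hj
      · exact hp x hx

lemma ins_sorted {j : ℕ} {p : List ℕ} (hp : p.Pairwise (· ≤ ·)) :
    (ins j p).Pairwise (· ≤ ·) := by
  induction p generalizing j with
  | nil => simp [ins]
  | cons a p ih =>
    rw [List.pairwise_cons] at hp
    unfold ins
    split_ifs with h
    · exact List.pairwise_cons.2 ⟨ins_ge (by omega) hp.1, ih hp.2⟩
    · refine List.pairwise_cons.2 ⟨fun x hx => ?_, List.pairwise_cons.2 hp⟩
      rcases List.mem_cons.1 hx with rfl | hx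
      · omega
      · have := hp.1 x hx; omega

lemma srt_sorted (p : List ℕ) : (srt p).Pairwise (· ≤ ·) := by
  induction p with
  | nil => simp [srt]
  | cons a p ih => exact ins_sorted ih

lemma xs_succ_apply (k : ℕ) (y : ℝ) : xs TA TB (k + 1) y = TB (y - k) + k := by
  simp only [xs]
  rw [aut_mul, aut_mul, TA_pow]
  apply inv_eq_of
  rw [TA_pow]; ring

lemma xs_le (i : ℕ) (y : ℝ) : xs TA TB i y ≤ y := by
  rcases i with _ | k
  · simp only [xs]; rw [TA_apply]; linarith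
  · rw [xs_succ_apply, TB_apply]
    unfold bfun
    have : max (y - k - 1) (min (y - k) ((y - k) / 2)) ≤ y - k :=
      max_le (by linarith) (min_le_left _ _)
    linarith

lemma xs_lt (i : ℕ) : xs TA TB i i < i := by
  rcases i with _ | k
  · simp only [xs]; rw [TA_apply]; linarith
  · rw [xs_succ_apply, TB_mid (by push_cast; linarith) (by push_cast; linarith)]
    push_cast; linarith

lemma evp_le (p : List ℕ) (y : ℝ) : evp (xs TA TB) p y ≤ y := by
  induction p with
  | nil => simp [evp]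
  | cons a p ih =>
    have : evp (xs TA TB) (a :: p) = xs TA TB a * evp (xs TA TB) p := by simp [evp]
    rw [this, aut_mul]; exact (xs_le _ _).trans ih

lemma evp_fix (i : ℕ) (q : List ℕ) (hq : ∀ x ∈ q, i < x) : evp (xs TA TB) q i = i := by
  induction q with
  | nil => simp [evp]
  | cons a q ih =>
    have : evp (xs TA TB) (a :: q) = xs TA TB a * evp (xs TA TB) q := by simp [evp]
    rw [this, aut_mul, ih (fun x hx => hq x (List.mem_cons_of_mem _ hx))]
    have ha := hq a List.mem_cons_self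
    obtain ⟨k, rfl⟩ : ∃ k, a = k + 1 := ⟨a - 1, by omega⟩
    exact xs_fix k (by exact_mod_cast (by omega : i ≤ k))

lemma evp_ne (i : ℕ) (p q : List ℕ) (hq : ∀ x ∈ q, i < x) :
    evp (xs TA TB) (i :: p) ≠ evp (xs TA TB) q := by
  intro h
  have h1 := evp_fix i q hq
  have : evp (xs TA TB) (i :: p) = xs TA TB i * evp (xs TA TB) p := by simp [evp]
  rw [← h, this, aut_mul] at h1
  have h2 := (xs TA TB i).monotone (evp_le p i)
  have h3 := xs_lt i
  linarith

lemma evp_inj (p q : List ℕ) (hp : p.Pairwise (· ≤ ·)) (hq : q.Pairwise (· ≤ ·))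
    (h : evp (xs TA TB) p = evp (xs TA TB) q) : p = q := by
  induction p generalizing q with
  | nil =>
    rcases q with _ | ⟨j, q⟩
    · rfl
    · exact absurd h.symm (evp_ne j q [] (by simp))
  | cons i p ih =>
    rcases q with _ | ⟨j, q⟩
    · exact absurd h (evp_ne i p [] (by simp))
    rw [List.pairwise_cons] at hp hq
    rcases lt_trichotomy i j with hij | rfl | hij
    · refine absurd h (evp_ne i p _ fun x hx => ?_)
      rcases List.mem_cons.1 hx with rfl | hx
      · exact hij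
      · exact hij.trans_le (hq.1 x hx)
    · have h1 : evp (xs TA TB) p = evp (xs TA TB) q := by
        simpa [evp] using h
      rw [ih q hp.2 hq.2 h1]
    · refine absurd h.symm (evp_ne j q _ fun x hx => ?_)
      rcases List.mem_cons.1 hx with rfl | hx
      · exact hij
      · exact hij.trans_le (hp.1 x hx)

theorem faithful {G : Type*} [Group G] {a b : G} (hrel : FRel a b)
    (hgen : Subgroup.closure {a, b} = ⊤) (π : G →* Aut) (ha : π a = TA) (hb : π b = TB) :
    Function.Injective π := by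
  rw [injective_iff_map_eq_one]
  intro g hg
  have hw : ∃ w, g = ev (xs a b) w := by
    have : g ∈ Subgroup.closure {a, b} := by rw [hgen]; trivial
    clear hg
    induction this using Subgroup.closure_induction with
    | mem x hx =>
      rcases hx with rfl | rfl
      · exact ⟨[(0, true)], by simp [ev, xs]⟩
      · exact ⟨[(1, true)], by simp [ev, xs]⟩
    | one => exact ⟨[], rfl⟩
    | mul x y _ _ hx hy =>
      obtain ⟨u, rfl⟩ := hx
      obtain ⟨v, rfl⟩ := hy
      exact ⟨u ++ v, (ev_append _ _ _).symm⟩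
    | inv x _ hx =>
      obtain ⟨u, rfl⟩ := hx
      exact ⟨winv u, (ev_winv _ _).symm⟩
  obtain ⟨w, rfl⟩ := hw
  have hX : ∀ i j, i < j → xs a b j * xs a b i = xs a b i * xs a b (j + 1) :=
    fun i j h => xs_rel hrel h
  have hX' : ∀ i j, i < j → xs TA TB j * xs TA TB i = xs TA TB i * xs TA TB (j + 1) :=
    fun i j h => xs_rel fpair_T.1 h
  have hmap : ∀ p, π (evp (xs a b) p) = evp (xs TA TB) p := by
    intro p
    induction p with
    | nil => simp [evp]
    | cons i p ih =>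
      simp only [evp, List.map_cons, List.prod_cons, map_mul] at ih ⊢
      rw [ih, map_xs, ha, hb]
  apply ev_eq_one hX
  apply evp_inj _ _ (srt_sorted _) (srt_sorted _)
  rw [evp_srt hX', evp_srt hX']
  rw [ev_nf hX, map_mul, map_inv, hmap, hmap, mul_inv_eq_one] at hg
  exact hg

end Pool.Agent.H336Z.ThF
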