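import Pool.Agent.H336Z.ThF.Model
import Pool.Agent.Helper844.Sys

/-! Word maps, and the coding of a Diophantine system by a single equation. -/

namespace Pool.Agent.H336Z.ThF

open Pool.Agent.H929Z.ThF Pool.Agent.Helper844.Sys
open scoped commutatorElement

noncomputable def gens : Bool → Aut := fun b => if b then TB else TA

noncomputable def evw (σ : ℕ → Aut) : FreeGroup (ℕ ⊕ Bool) →* Aut :=
  FreeGroup.lift (Sum.elim σ gens)

/-- word maps with constants -/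
def WM (Φ : (ℕ → Aut) → Aut) : Prop := ∃ w : FreeGroup (ℕ ⊕ Bool), ∀ σ, Φ σ = evw σ w

lemma WM.var (i : ℕ) : WM (fun σ => σ i) := ⟨FreeGroup.of (Sum.inl i), fun σ => by simp [evw]⟩

lemma WM.mul {Φ Ψ : (ℕ → Aut) → Aut} (h1 : WM Φ) (h2 : WM Ψ) : WM (fun σ => Φ σ * Ψ σ) := by
  obtain ⟨u, hu⟩ := h1
  obtain ⟨v, hv⟩ := h2
  exact ⟨u * v, fun σ => by rw [map_mul, ← hu, ← hv]⟩

lemma WM.inv {Φ : (ℕ → Aut) → Aut} (h1 : WM Φ) : WM (fun σ => (Φ σ)⁻¹) := by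
  obtain ⟨u, hu⟩ := h1
  exact ⟨u⁻¹, fun σ => by rw [map_inv, ← hu]⟩

lemma WM.zpow {Φ : (ℕ → Aut) → Aut} (h1 : WM Φ) (n : ℤ) : WM (fun σ => (Φ σ) ^ n) := by
  obtain ⟨u, hu⟩ := h1
  exact ⟨u ^ n, fun σ => by rw [map_zpow, ← hu]⟩

lemma WM.const {c : Aut} (hc : c ∈ HF) : WM (fun _ => c) := by
  unfold HF at hc
  induction hc using Subgroup.closure_induction with
  | mem x hx =>
    rcases hx with rfl | rfl
    · exact ⟨FreeGroup.of (Sum.inr false), fun σ => by simp [evw, gens]⟩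
    · exact ⟨FreeGroup.of (Sum.inr true), fun σ => by simp [evw, gens]⟩
  | one => exact ⟨1, fun σ => by simp⟩
  | mul x y _ _ hx hy => exact hx.mul hy
  | inv x _ hx => exact hx.inv

lemma WM.comm {Φ Ψ : (ℕ → Aut) → Aut} (h1 : WM Φ) (h2 : WM Ψ) : WM (fun σ => ⁅Φ σ, Ψ σ⁆) :=
  ((h1.mul h2).mul h1.inv).mul h2.inv

lemma WM.step {a d : Aut} (ha : a ∈ HF) (hd : d ∈ HF) {Φ : (ℕ → Aut) → Aut} (h : WM Φ) :
    WM (fun σ => step a d (Φ σ)) := by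
  have h1 := (h.mul (WM.const ha)).mul h.inv
  exact ((h1.mul (WM.const hd)).mul h1.inv).mul
    (WM.const (HF.inv_mem (HF.mul_mem (HF.mul_mem ha hd) (HF.inv_mem ha))))

lemma WM.mem {Φ : (ℕ → Aut) → Aut} (h : WM Φ) {σ : ℕ → Aut} (hσ : ∀ i, σ i ∈ HF) :
    Φ σ ∈ HF := by
  obtain ⟨w, hw⟩ := h
  rw [hw]
  clear hw
  induction w using FreeGroup.induction_on with
  | C1 => simpa using HF.one_mem
  | of x =>
    rcases x with i | b
    · simpa [evw] using hσ i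
    · cases b
      · simpa [evw, gens] using TA_mem
      · simpa [evw, gens] using TB_mem
  | inv_of x hx => rw [map_inv]; exact HF.inv_mem hx
  | mul x y hx hy => rw [map_mul]; exact HF.mul_mem hx hy

/-- word maps supported in the window -/
def WS (Φ : (ℕ → Aut) → Aut) : Prop := WM Φ ∧ ∀ σ, Supp (Φ σ) (-3) 12

lemma WS.mul {Φ Ψ : (ℕ → Aut) → Aut} (h1 : WS Φ) (h2 : WS Ψ) : WS (fun σ => Φ σ * Ψ σ) :=
  ⟨h1.1.mul h2.1, fun σ => (h1.2 σ).mul (h2.2 σ)⟩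
lemma WS.inv {Φ : (ℕ → Aut) → Aut} (h1 : WS Φ) : WS (fun σ => (Φ σ)⁻¹) :=
  ⟨h1.1.inv, fun σ => (h1.2 σ).inv⟩
lemma WS.zpow {Φ : (ℕ → Aut) → Aut} (h1 : WS Φ) (n : ℤ) : WS (fun σ => (Φ σ) ^ n) :=
  ⟨h1.1.zpow n, fun σ => (h1.2 σ).zpow n⟩
lemma WS.comm {Φ Ψ : (ℕ → Aut) → Aut} (h1 : WS Φ) (h2 : WS Ψ) : WS (fun σ => ⁅Φ σ, Ψ σ⁆) :=
  ⟨h1.1.comm h2.1, fun σ => (h1.2 σ).comm (h2.2 σ)⟩
lemma WS.const {c : Aut} (hc : c ∈ HF) (h : Supp c 0 4) : WS (fun _ => c) :=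
  ⟨WM.const hc, fun _ => h.mono (by norm_num) (by norm_num)⟩

/-- translation by `15` -/
noncomputable def sh : Aut := TA ^ (-15 : ℤ)

lemma sh_mem : sh ∈ HF := HF.zpow_mem TA_mem _

lemma sh_inv (x : ℝ) : sh⁻¹ x = x - 15 := by
  unfold sh; rw [← zpow_neg, TA_zpow]; norm_num

lemma glue {w W : Aut} (hw : Supp w (-3) 12) (hW : ∀ x, x ≤ -3 → W x = x) :
    (w * (sh * W * sh⁻¹) = 1 ↔ w = 1 ∧ W = 1) ∧ ∀ x, x ≤ -3 → (w * (sh * W * sh⁻¹)) x = x := by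
  have h1 : ∀ x, x ≤ 12 → (sh * W * sh⁻¹) x = x := by
    intro x hx
    rw [aut_mul, aut_mul, hW _ (by rw [sh_inv]; linarith), aut_apply_inv]
  refine ⟨⟨fun h => ?_, fun h => by rw [h.1, h.2]; group⟩, fun x hx => by
    rw [aut_mul, h1 x (by linarith), hw x (Or.inl hx)]⟩
  have h2 : w = 1 := by
    ext x
    rcases le_total x 12 with hx | hx
    · have := congrArg (fun f : Aut => f x) h
      simp only [aut_mul w, h1 x hx] at this
      exact this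
    · exact hw x (Or.inr hx)
  refine ⟨h2, ?_⟩
  rw [h2, one_mul] at h
  calc W = sh⁻¹ * (sh * W * sh⁻¹) * sh := by group
    _ = 1 := by rw [h]; group

/-- conditions expressed by a single equation supported to the right of `-3` -/
def Sys (P : (ℕ → Aut) → Prop) : Prop :=
  ∃ W, WM W ∧ (∀ σ x, x ≤ -3 → W σ x = x) ∧ ∀ σ, (W σ = 1 ↔ P σ)

def Pre (Q : (ℕ → Aut) → Prop) : Prop := ∀ P, Sys P → Sys (fun σ => Q σ ∧ P σ)

lemma Sys.congr {P Q : (ℕ → Aut) → Prop} (h : Sys P) (e : ∀ σ, P σ ↔ Q σ) : Sys Q := by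
  obtain ⟨W, a, b, c⟩ := h
  exact ⟨W, a, b, fun σ => (c σ).trans (e σ)⟩

lemma Pre.sys {Q : (ℕ → Aut) → Prop} (h : Pre Q) : Sys Q :=
  (h (fun _ => True) ⟨fun _ => 1, WM.const HF.one_mem, fun _ _ _ => rfl, by simp⟩).congr (by simp)

lemma WS.pre {w : (ℕ → Aut) → Aut} (h : WS w) : Pre (fun σ => w σ = 1) := by
  rintro P ⟨W, a, b, c⟩
  refine ⟨fun σ => w σ * (sh * W σ * sh⁻¹),
    h.1.mul (((WM.const sh_mem).mul a).mul (WM.const (HF.inv_mem sh_mem))),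
    fun σ => (glue (h.2 σ) (b σ)).2, fun σ => ?_⟩
  rw [(glue (h.2 σ) (b σ)).1, c]

lemma Pre.and {Q R : (ℕ → Aut) → Prop} (h1 : Pre Q) (h2 : Pre R) : Pre (fun σ => Q σ ∧ R σ) :=
  fun P hP => (h1 _ (h2 P hP)).congr (fun _ => and_assoc.symm)

lemma Pre.list {ι : Type} (l : List ι) (Q : ι → (ℕ → Aut) → Prop) (h : ∀ i, Pre (Q i)) :
    Pre (fun σ => ∀ i ∈ l, Q i σ) := by
  induction l with
  | nil => exact fun P hP => hP.congr (by simp)
  | cons a l ih => exact fun P hP => (((h a).and ih) P hP).congr (by simp)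

lemma pre_gad {t α βr βs : Aut} {u : ℝ} (S : Setup t α βr βs u) (ht : t ∈ HF) (hα : α ∈ HF)
    (hr : βr ∈ HF) (hs : βs ∈ HF) {E T N J z : (ℕ → Aut) → Aut} (hE : WS E) (hT : WS T)
    (hN : WS N) (hJ : WS J) (hz : WS z) :
    Pre (fun σ => Gad t α βr βs (E σ) (T σ) (N σ) (J σ) (z σ)) := by
  have ct := WS.const ht S.ht.supp
  have ca := WS.const hα S.supp_α'
  have cr := WS.const hr S.supp_r
  have cs := WS.const hs S.supp_s
  exact (hz.comm ((hJ.mul cr).mul hJ.inv)).pre.and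
    ((hz.comm ((hJ.mul ((ct.mul ca).mul ct.inv)).mul hJ.inv)).pre.and
    ((hz.comm ((hJ.inv.mul cs).mul hJ.inv.inv)).pre.and
    ((hz.comm ((hJ.inv.mul ((ct.inv.mul ca).mul ct.inv.inv)).mul hJ.inv.inv)).pre.and
    (((hE.comm (hT.comm ca)).mul (hN.comm (ct.comm ca)).inv).mul
      (ct.comm (ct.comm (ct.comm hz))).inv).pre)))

lemma countable_eqn (V : Type) [Countable V] : Countable (Eqn V) := by
  have : Function.Injective (fun q : Eqn V => ((q.i, q.j, q.k, q.l, q.m), (q.e, q.a, q.b, q.c, q.d))) := by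
    rintro ⟨_, _, _, _, _, _, _, _, _, _⟩ ⟨_, _, _, _, _, _, _, _, _, _⟩ h
    simp only [Prod.mk.injEq] at h
    simp only [Eqn.mk.injEq]
    tauto
  exact this.countable

theorem coding {V : Type} [Fintype V] (f : V) (L : List (Eqn V)) :
    ∃ P₁ u P₂ P₃ : (ℕ → Aut) → Aut, WM P₁ ∧ WM u ∧ WM P₂ ∧ WM P₃ ∧ ∀ n : ℕ,
      ((∃ σ : ℕ → Aut, (∀ i, σ i ∈ HF) ∧ P₁ σ * u σ ^ n * P₂ σ * (u σ)⁻¹ ^ n * P₃ σ = 1) ↔
        ∃ x : V → ℤ, x f = 1 - 4 * n ∧ ∀ q ∈ L, q.Holds x) := by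
  classical
  obtain ⟨t, ht, α, hα, βr, hr, βs, hs, u, S⟩ := exists_setup
  obtain ⟨a, ha, d, hd, e, he, g, hg, hΦ1, hΦ2⟩ := exists_phi
  have := countable_eqn V
  obtain ⟨ι, hι⟩ := exists_injective_nat (V ⊕ Eqn V ⊕ Eqn V)
  let Y : ℕ → (ℕ → Aut) → Aut := fun i σ => step e g (step a d (σ i))
  have hY : ∀ i, WS (Y i) := fun i => ⟨((WM.var i).step ha hd).step he hg, fun σ => hΦ1 _⟩
  let T : V → (ℕ → Aut) → Aut := fun v => Y (ι (Sum.inl v))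
  let J : Eqn V → (ℕ → Aut) → Aut := fun q => Y (ι (Sum.inr (Sum.inl q)))
  let Z : Eqn V → (ℕ → Aut) → Aut := fun q => Y (ι (Sum.inr (Sum.inr q)))
  let E : Eqn V → (ℕ → Aut) → Aut := fun q σ => T q.i σ ^ q.e
  let N : Eqn V → (ℕ → Aut) → Aut := fun q σ =>
    (T q.k σ ^ q.a * T q.l σ ^ q.b * T q.m σ ^ q.c * t ^ q.d)⁻¹
  have ct := WS.const ht S.ht.supp
  have hsys : Sys (fun σ => (∀ v ∈ (Finset.univ : Finset V).toList, ⁅T v σ, t⁆ = 1) ∧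
      ∀ q ∈ L, (⁅J q σ, t⁆ = 1 ∧ Gad t α βr βs (E q σ) (T q.j σ) (N q σ) (J q σ) (Z q σ))) := by
    apply Pre.sys
    refine (Pre.list _ _ fun v => ((hY _).comm ct).pre).and (Pre.list _ _ fun q => ?_)
    refine ((hY _).comm ct).pre.and (pre_gad S ht hα hr hs ((hY _).zpow _) (hY _) ?_ (hY _) (hY _))
    exact (((((hY _).zpow _).mul ((hY _).zpow _)).mul ((hY _).zpow _)).mul (ct.zpow _)).inv
  obtain ⟨W, hW1, hW2, hW3⟩ := hsys
  have hag : ∀ (σ : ℕ → Aut) (x : V → ℤ), (∀ v, Ag t (T v σ) (x v)) → ∀ q : Eqn V,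
      Ag t (E q σ) (q.e * x q.i) ∧
        Ag t (N q σ) (-(q.a * x q.k + q.b * x q.l + q.c * x q.m + q.d)) := by
    intro σ x hx q
    exact ⟨S.ag_zpow (hx _) _, S.ag_inv (S.ag_mul (S.ag_mul (S.ag_mul (S.ag_zpow (hx _) _)
      (S.ag_zpow (hx _) _)) (S.ag_zpow (hx _) _)) (ag_self t _))⟩
  refine ⟨fun σ => T f σ * t⁻¹, fun _ => t ^ (4 : ℤ), fun _ => α,
    fun σ => (T f σ * t⁻¹)⁻¹ * α⁻¹ * (sh * W σ * sh⁻¹), (hY _).1.mul (WM.const (HF.inv_mem ht)),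
    WM.const (HF.zpow_mem ht _), WM.const hα,
    (((hY _).1.mul (WM.const (HF.inv_mem ht))).inv.mul (WM.const (HF.inv_mem hα))).mul
      (((WM.const sh_mem).mul hW1).mul (WM.const (HF.inv_mem sh_mem))), fun n => ?_⟩
  have key : ∀ σ, (T f σ * t⁻¹ * (t ^ (4 : ℤ)) ^ n * α * (t ^ (4 : ℤ))⁻¹ ^ n *
      ((T f σ * t⁻¹)⁻¹ * α⁻¹ * (sh * W σ * sh⁻¹)) = 1 ↔
      ⁅T f σ * t ^ (4 * (n : ℤ) - 1), α⁆ = 1 ∧ W σ = 1) := by
    intro σ
    have s1 : Supp ⁅T f σ * t ^ (4 * (n : ℤ) - 1), α⁆ (-3) 12 :=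
      (((hY _).mul (ct.zpow _)).comm (WS.const hα S.supp_α')).2 σ
    rw [← (glue s1 (hW2 σ)).1]
    have e1 : t ^ (4 * (n : ℤ) - 1) = t⁻¹ * (t ^ (4 : ℤ)) ^ n := by
      rw [← zpow_natCast, ← zpow_mul, ← zpow_neg_one, ← zpow_add, sub_eq_neg_add]
    rw [e1, commutatorElement_def, inv_pow]
    apply Eq.congr_left
    group
  constructor
  · rintro ⟨σ, hσ, h⟩
    obtain ⟨h0, h1⟩ := (key σ).1 h
    obtain ⟨h2, h3⟩ := (hW3 σ).1 h1
    have hpl : ∀ i, Y i σ ∈ PL := fun i => HF_le ((hY i).1.mem hσ)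
    have h4 : ∀ v, ∃ m, Ag t (T v σ) m := fun v =>
      S.ag_of_commute (hpl _) (commutatorElement_eq_one_iff_commute.1 (h2 v (by simp)))
    choose x hx using h4
    refine ⟨x, ?_, fun q hq => ?_⟩
    · have := S.ag_zero (S.ag_mul (hx f) (ag_self t _)) (commutatorElement_eq_one_iff_commute.1 h0)
      linarith
    · obtain ⟨h5, h6⟩ := h3 q hq
      obtain ⟨j, hj⟩ := S.ag_of_commute (hpl _) (commutatorElement_eq_one_iff_commute.1 h5)
      have := S.sound (hag σ x hx q).1 (hx q.j) (hag σ x hx q).2 hj (hpl _) (hpl _) h6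
      unfold Eqn.Holds
      linarith
  · rintro ⟨x, hxf, hx⟩
    have hc := fun q : Eqn V => S.complete HF ht hα (q.e * x q.i) (x q.j)
    choose z hzH j hzs hz using hc
    let σ₀ : V ⊕ Eqn V ⊕ Eqn V → Aut :=
      Sum.elim (fun v => t ^ x v) (Sum.elim (fun q => t ^ j q) z)
    have h0H : ∀ k, σ₀ k ∈ HF := by
      rintro (v | q | q)
      · exact HF.zpow_mem ht _
      · exact HF.zpow_mem ht _
      · exact hzH q
    have h0s : ∀ k, Supp (σ₀ k) 0 4 := by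
      rintro (v | q | q)
      · exact S.ht.supp.zpow _
      · exact S.ht.supp.zpow _
      · exact hzs q
    let σ : ℕ → Aut := Function.extend ι σ₀ (fun _ => 1)
    have hσ : ∀ k, σ (ι k) = σ₀ k := fun k => hι.extend_apply _ _ k
    have hYσ : ∀ k y, 0 ≤ y → y ≤ 4 → Y (ι k) σ y = σ₀ k y := by
      intro k y h1 h2
      show step e g (step a d (σ (ι k))) y = _
      rw [hσ]; exact hΦ2 _ (h0s k) y h1 h2
    have hT : ∀ v, Ag t (T v σ) (x v) := fun v => hYσ (Sum.inl v)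
    have hJ : ∀ q, Ag t (J q σ) (j q) := fun q => hYσ (Sum.inr (Sum.inl q))
    refine ⟨σ, fun i => ?_, (key σ).2 ⟨?_, (hW3 σ).2 ⟨fun v _ => ?_, fun q hq => ⟨?_, ?_⟩⟩⟩⟩
    · by_cases hi : ∃ k, ι k = i
      · obtain ⟨k, rfl⟩ := hi
        rw [hσ]; exact h0H k
      · have : σ i = 1 := Function.extend_apply' _ _ _ hi
        rw [this]; exact HF.one_mem
    · rw [commutatorElement_eq_one_iff_commute]
      have := S.ag_mul (hT f) (ag_self t (4 * (n : ℤ) - 1))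
      rw [show x f + (4 * (n : ℤ) - 1) = 0 by rw [hxf]; ring] at this
      exact commute_of_ag this S.supp_α'
    · exact commutatorElement_eq_one_iff_commute.2 (commute_t_of_ag S.ht.supp (hT v))
    · exact commutatorElement_eq_one_iff_commute.2 (commute_t_of_ag S.ht.supp (hJ q))
    · refine hz q _ _ _ _ _ (hag σ x hT q).1 (hT _) ?_ (hJ q) (hYσ (Sum.inr (Sum.inr q)))
      have h1 := hx q hq
      unfold Eqn.Holds at h1
      have h2 := (hag σ x hT q).2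
      rwa [show -(q.a * x q.k + q.b * x q.l + q.c * x q.m + q.d) = q.e * x q.i * x q.j by
        linarith] at h2

end Pool.Agent.H336Z.ThF
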